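import Pool.Agent.helper91.ADV.SpecL
import Pool.Agent.helper82.PC.BSM

set_option autoImplicit false

namespace Pool.Agent.ADV

open Finset Pool.Agent.helper55.NT Pool.Agent.LNB Pool.Agent.NG Pool.Agent.PB Pool.Agent.PC

/-- the law of `φ a`, `a` uniform -/
noncomputable def BSD_law {A X : Type} [Fintype A] (φ : A → X) (x : X) : ℝ :=
  (ct (fun a => φ a = x) : ℝ) / Fintype.card A

theorem BSD_pr {A X : Type} [Fintype A] [Fintype X] (φ : A → X) (u : X → Bool) :
    pr (BSD_law φ) u = (ct (fun a => u (φ a) = true) : ℝ) / Fintype.card A := by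
  classical
  unfold pr BSD_law
  have h1 : ∀ x, (if u x = true then ((ct (fun a => φ a = x) : ℝ) / Fintype.card A) else 0) =
      (∑ a : A, if φ a = x ∧ u x = true then (1 : ℝ) else 0) / Fintype.card A := by
    intro x
    by_cases h : u x = true
    · simp only [h, if_true, and_true]
      rw [ct_eq, Finset.card_filter]
      push_cast
      rfl
    · simp [h]
  rw [sum_congr rfl (fun x _ => h1 x), ← sum_div, sum_comm]
  congr 1
  rw [ct_eq, card_filter]
  push_cast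
  apply sum_congr rfl
  intro a _
  rw [Finset.sum_eq_single (φ a)]
  · simp
  · intro x _ hx
    rw [if_neg]
    rintro ⟨h, _⟩
    exact hx h.symm
  · intro h
    exact absurd (mem_univ _) h

theorem BSD_dist {A : Type} [Fintype A] {n : ℕ} (φ : A → (Fin n → Bool)) (hA : 0 < Fintype.card A) :
    IsDist (BSD_law φ) := by
  constructor
  · intro x
    unfold BSD_law
    positivity
  · have h := BSD_pr φ (fun _ => true)
    have h1 : pr (BSD_law φ) (fun _ => true) = ∑ x, BSD_law φ x := by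
      unfold pr
      simp
    rw [h1, ct_true (fun a => rfl)] at h
    rw [h]
    have : (Fintype.card A : ℝ) ≠ 0 := by
      have := hA.ne'
      exact_mod_cast this
    exact div_self this

theorem BSD_ne {A X : Type} [Fintype A] (φ : A → X) (x : X) (h : BSD_law φ x ≠ 0) : ∃ a, φ a = x := by
  by_contra hcon
  push Not at hcon
  apply h
  unfold BSD_law
  rw [ct_false hcon]
  simp

theorem BSD_num (e r : ℕ) (he : 6 ≤ e) (hr : 2 ≤ r) :
    2 * (4 * 2 ^ e * 2 ^ (4 * e)) * 2 ^ (4 * e) ≤ (2 ^ (6 * e)) ^ r := by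
  have h1 : 2 * (4 * 2 ^ e * 2 ^ (4 * e)) * 2 ^ (4 * e) = 2 ^ (9 * e + 3) := by
    have : 9 * e + 3 = 3 + (e + (4 * e + 4 * e)) := by ring
    rw [this, pow_add, pow_add, pow_add]
    ring
  rw [h1, ← pow_mul]
  apply Nat.pow_le_pow_right (by norm_num)
  have h2 : 6 * e * 2 ≤ 6 * e * r := Nat.mul_le_mul_left _ hr
  omega

open Classical in
theorem BSD_one (h1 : AVL_stmt) (h2 : SYD_stmt) (h3 : NUD_stmt) (C : ℕ)
    (hC : ∀ (N : ℕ) (W : Set (Fin N → Bool)),
      (∀ u ∈ W, ∀ v ∈ W, ∀ w ∈ W, (fun i => xor (u i) (xor (v i) (w i))) ∈ W) →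
      Size std (fun x : Fin N → Bool =>
        decide (∃ v ∈ W, ∀ i, v i = true → x i = true)) (C * (N + 2) ^ 4))
    (e r : ℕ) (hok : OkD e r) :
    ∃ (h : BF (nB e r)) (dp dn : (Fin (nB e r) → Bool) → ℝ), Mono h ∧
      Size std h (C * (nB e r + 2) ^ 4) ∧ h (fun _ => false) = false ∧ IsDist dp ∧ IsDist dn ∧
      (∀ x, dp x ≠ 0 → h x = true) ∧ (∀ x, dn x ≠ 0 → h x = false) ∧
      ∀ (u : BF (nB e r)) (s : ℕ), Size (upTo monG (2 ^ (6 * e * (r - 1)))) u s →
        pr dp u ≤ pr dn u + s / 2 ^ (2 ^ e) := by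
  obtain ⟨he, hr, her⟩ := hok
  have : Fact (Nat.Prime 2) := ⟨Nat.prime_two⟩
  let iF : Fintype (GaloisField 2 (6 * e)) := Fintype.ofFinite _
  let iD : DecidableEq (GaloisField 2 (6 * e)) := Classical.decEq _
  have hK : Fintype.card (GaloisField 2 (6 * e)) = 2 ^ (6 * e) := by
    rw [← Nat.card_eq_fintype_card]
    exact GaloisField.card 2 (6 * e) (by omega)
  obtain ⟨S, -, hS⟩ : ∃ S : Finset (GaloisField 2 (6 * e)), S ⊆ univ ∧ S.card = 2 ^ (2 * e) := by
    apply Finset.exists_subset_card_eq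
    rw [card_univ, hK]
    exact Nat.pow_le_pow_right (by norm_num) (by omega)
  have hP : Fintype.card (Pt (GaloisField 2 (6 * e)) r) = 2 ^ (6 * e * (r + 1)) := by
    rw [Fintype.card_prod, Fintype.card_fun, Fintype.card_fin, hK, ← pow_mul, ← pow_add]
    congr 1
    ring
  have hρ : Nonempty (Pt (GaloisField 2 (6 * e)) r ≃ Fin (nB e r)) := by
    refine ⟨Fintype.equivOfCardEq ?_⟩
    rw [hP, Fintype.card_fin]
    rfl
  obtain ⟨ρ⟩ := hρ
  obtain ⟨Y, hg, hnu, ht, hM, hk, hkap, hm, hlast⟩ :=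
    h2 (GaloisField 2 (6 * e)) e r (4 * 2 ^ e + 2 * 2 ^ e) S he (by omega) hK hS
  have hA : 0 < Fintype.card (Fin r → Fin (2 * 2 ^ e + 1) → GaloisField 2 (6 * e)) := Fintype.card_pos
  have hOm : 0 < Fintype.card (Fin (2 ^ (2 * e)) → Th (GaloisField 2 (6 * e)) (4 * 2 ^ e) r) :=
    Fintype.card_pos
  have hrej : ∀ (ω : Fin (2 ^ (2 * e)) → Th (GaloisField 2 (6 * e)) (4 * 2 ^ e) r)
      (V : Finset (Pt (GaloisField 2 (6 * e)) r)),
      V ⊆ Ngf (4 * 2 ^ e + 2 * 2 ^ e) S ω → ¬ AffG (2 * 2 ^ e) V := by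
    intro ω V hV
    refine qREJ (GaloisField 2 (6 * e)) (2 * 2 ^ e) (4 * 2 ^ e) r (2 ^ (2 * e)) S ω V ?_ ?_ hV
    · have := Nat.one_le_two_pow (n := e)
      omega
    · rw [hS, hK]
      exact BSM_num e he
  refine ⟨BSM_h (2 * 2 ^ e) (nB e r) ρ,
    BSD_law (fun a : Fin r → Fin (2 * 2 ^ e + 1) → GaloisField 2 (6 * e) => inp ρ (grF a)),
    BSD_law (fun ω : Fin (2 ^ (2 * e)) → Th (GaloisField 2 (6 * e)) (4 * 2 ^ e) r =>
      inp ρ (Ngf (4 * 2 ^ e + 2 * 2 ^ e) S ω)),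
    BSM_mono _ _ ρ, BSM_size qTRI C hC _ _ ρ, ?_, BSD_dist _ hA, BSD_dist _ hOm, ?_, ?_, ?_⟩
  · rw [Bool.eq_false_iff]
    intro hh
    rw [BSM_h_iff] at hh
    obtain ⟨V, hV, hz⟩ := hh
    have hV0 : V = ∅ := by
      rw [Finset.eq_empty_iff_forall_notMem]
      intro z hzV
      exact absurd (hz z hzV) (by simp)
    exact hrej (fun _ => (fun _ => 0, fun _ _ => 0)) V (by rw [hV0]; exact Finset.empty_subset _) hV
  · intro x hx
    obtain ⟨a, rfl⟩ := BSD_ne _ x hx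
    rw [BSM_h_iff]
    refine ⟨grF a, fun R hR => hR a, ?_⟩
    intro z hz
    unfold inp
    rw [Equiv.symm_apply_apply]
    exact decide_eq_true hz
  · intro x hx
    obtain ⟨ω, rfl⟩ := BSD_ne _ x hx
    rw [Bool.eq_false_iff]
    intro hh
    rw [BSM_h_iff] at hh
    obtain ⟨V, hV, hz⟩ := hh
    refine hrej ω V ?_ hV
    intro z hzV
    have h2 := hz z hzV
    unfold inp at h2
    rw [Equiv.symm_apply_apply] at h2
    exact of_decide_eq_true h2
  · intro u s hu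
    rw [BSD_pr, BSD_pr]
    have hL : 1 ≤ 2 ^ (4 * e) := Nat.one_le_two_pow
    have hu' : Size (upTo monG Y.m) u s := by
      rw [hm]
      exact hu
    have h := h1 (Pt (GaloisField 2 (6 * e)) r) (Fin r → Fin (2 * 2 ^ e + 1) → GaloisField 2 (6 * e))
      (Fin (2 ^ (2 * e)) → Th (GaloisField 2 (6 * e)) (4 * 2 ^ e) r) Y (nB e r) ρ (2 ^ (4 * e)) u s hA hOm hL
      (by
        rw [hk, hkap]
        exact BSD_num e r he hr) hlast hu'
    rw [hg, hnu, ht, hM, hP] at h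
    refine h.trans ?_
    have h4 := h3 e r ⟨he, hr, her⟩
    have h5 : (s : ℝ) * (1 / 4 ^ (2 ^ e) + ((2 ^ (6 * e * (r + 1)) : ℝ) + 1) ^ (2 * 2 ^ e) / 2 ^ (2 ^ (2 * e))) ≤
        s * (1 / 2 ^ (2 ^ e)) := mul_le_mul_of_nonneg_left h4 (Nat.cast_nonneg _)
    have h6 : (s : ℝ) * (1 / 2 ^ (2 ^ e)) = s / 2 ^ (2 ^ e) := by ring
    rw [h6] at h5
    push_cast
    push_cast at h5
    linarith

theorem BSD (h1 : AVL_stmt) (h2 : SYD_stmt) (h3 : NUD_stmt) : BSD_stmt := by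
  classical
  obtain ⟨C, hC⟩ := qGS3
  have hex : ∀ e r : ℕ, ∃ (h : BF (nB e r)) (dp dn : (Fin (nB e r) → Bool) → ℝ), OkD e r → (Mono h ∧
      Size std h (C * (nB e r + 2) ^ 4) ∧ h (fun _ => false) = false ∧ IsDist dp ∧ IsDist dn ∧
      (∀ x, dp x ≠ 0 → h x = true) ∧ (∀ x, dn x ≠ 0 → h x = false) ∧
      ∀ (u : BF (nB e r)) (s : ℕ), Size (upTo monG (2 ^ (6 * e * (r - 1)))) u s →
        pr dp u ≤ pr dn u + s / 2 ^ (2 ^ e)) := by
    intro e r
    by_cases hok : OkD e r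
    · obtain ⟨h, dp, dn, hh⟩ := BSD_one h1 h2 h3 C hC e r hok
      exact ⟨h, dp, dn, fun _ => hh⟩
    · exact ⟨fun _ => false, fun _ => 0, fun _ => 0, fun h => absurd h hok⟩
  choose h dp dn hh using hex
  exact ⟨{ c := C, h := h, dp := dp, dn := dn,
           mono := fun e r ho => (hh e r ho).1,
           size := fun e r ho => (hh e r ho).2.1,
           zero := fun e r ho => (hh e r ho).2.2.1,
           dpd := fun e r ho => (hh e r ho).2.2.2.1,
           dnd := fun e r ho => (hh e r ho).2.2.2.2.1,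
           dp1 := fun e r ho => (hh e r ho).2.2.2.2.2.1,
           dn0 := fun e r ho => (hh e r ho).2.2.2.2.2.2.1,
           low := fun e r ho => (hh e r ho).2.2.2.2.2.2.2 }⟩

end Pool.Agent.ADV
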