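import Pool.Agent.helper91.ADV.SpecX

set_option autoImplicit false

namespace Pool.Agent.ADV

open Finset Pool.Agent.helper38.Neg Pool.Agent.helper55.NT Pool.Agent.LNB

lemma UPX_wtu_le (u : ℕ) {n : ℕ} (z : Fin n → Bool) : wtu u z ≤ min u n := by
  unfold wtu
  apply le_min
  · calc (Finset.univ.filter fun i : Fin n => (i : ℕ) < u ∧ z i = true).card
        = ((Finset.univ.filter fun i : Fin n => (i : ℕ) < u ∧ z i = true).image
            (fun i : Fin n => (i : ℕ))).card :=
          (Finset.card_image_of_injective _ Fin.val_injective).symm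
      _ ≤ (Finset.range u).card := by
          apply Finset.card_le_card
          intro j hj
          rw [Finset.mem_image] at hj
          obtain ⟨i, hi, rfl⟩ := hj
          rw [Finset.mem_filter] at hi
          exact Finset.mem_range.mpr hi.2.1
      _ = u := Finset.card_range u
  · calc (Finset.univ.filter fun i : Fin n => (i : ℕ) < u ∧ z i = true).card
        ≤ (Finset.univ : Finset (Fin n)).card := Finset.card_le_card (Finset.filter_subset _ _)
      _ = n := by rw [Finset.card_univ, Fintype.card_fin]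

lemma UPX_core (h1 : ALC_stmt) (h2 : ALA_stmt) (n s u r : ℕ) (C : Circuit n s)
    (o : Fin (n + s)) (D : (Fin n → Bool) → ℝ) (hD : IsDist D)
    (hr : 2 ^ (r + 1) - 1 ≤ min u n + 1) :
    ∃ s' ≤ (4 * n + 4) * (2 * (2 * n + 2) ^ 3 + 2 * s + 12) + n + 1, ∃ (C' : Circuit n s')
      (o' : Fin (n + s')), FewDep u r C' ∧ optx u r n ≤
        adv D (fun x => C.val x o = true) fun x => C'.val x o' := by
  have hm : min u n ≤ n := min_le_right _ _
  have hpos : 2 ≤ 2 ^ (r + 1) := by
    calc 2 = 2 ^ 1 := by norm_num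
      _ ≤ 2 ^ (r + 1) := Nat.pow_le_pow_right (by norm_num) (by omega)
  have hpow : 2 ^ (r + 1) ≤ 4 * n + 4 := by omega
  have hK : 1 ≤ 2 ^ (r + 1) - 1 := by omega
  have hcast : (((2 ^ (r + 1) - 1 : ℕ) : ℕ) : ℝ) = (2 : ℝ) ^ (r + 1) - 1 := by
    rw [Nat.cast_sub (by omega)]
    push_cast
    ring
  have hopt : optx u r n ≤ ((2 ^ (r + 1) - 1 : ℕ) : ℝ) / (2 * ((min u n : ℕ) + 1)) := by
    rw [hcast]
    exact min_le_right _ _
  obtain ⟨L, hL, hw⟩ := h2 n u (2 ^ (r + 1) - 1) hK hr (fun x => C.val x o) D hD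
  rcases hw with hw | hw
  · obtain ⟨s', hs', C', o', hF, hv⟩ := h1 n s u r L C o hL
    refine ⟨s', hs'.trans ?_, C', o', hF, ?_⟩
    · have h1 : 2 ^ (r + 1) * (2 * (2 * n + 2) ^ 3 + 2 * s + 10) ≤
          (4 * n + 4) * (2 * (2 * n + 2) ^ 3 + 2 * s + 12) := Nat.mul_le_mul hpow (by omega)
      omega
    · have e : (fun x => C'.val x o') = altu u L (fun x => C.val x o) := funext hv
      rw [e]
      exact hopt.trans hw
  · obtain ⟨s', hs', C', o', hF, hv⟩ := h1 n (s + 1) u r L (Circuit.snoc C (Gate.not o))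
      (Fin.last (n + s)) hL
    refine ⟨s', hs'.trans ?_, C', o', hF, ?_⟩
    · have h1 : 2 ^ (r + 1) * (2 * (2 * n + 2) ^ 3 + 2 * (s + 1) + 10) ≤
          (4 * n + 4) * (2 * (2 * n + 2) ^ 3 + 2 * s + 12) := Nat.mul_le_mul hpow (by omega)
      omega
    · have e2 : (fun x => (Circuit.snoc C (Gate.not o)).val x (Fin.last (n + s))) =
          fun x => !(C.val x o) := by
        funext x
        simp [Circuit.val, Gate.eval]
      have e : (fun x => C'.val x o') = altu u L (fun x => !(C.val x o)) := by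
        rw [← e2]
        exact funext hv
      rw [e]
      exact hopt.trans hw

theorem UPX (h1 : ALC_stmt) (h2 : ALA_stmt) : UPX_stmt := by
  intro n s u r C o D hD
  by_cases hr : 2 ^ (r + 1) - 1 ≤ min u n + 1
  · exact UPX_core h1 h2 n s u r C o D hD hr
  · have hm : min u n ≤ n := min_le_right _ _
    have hPr : min u n + 1 ≤ 2 ^ (r + 1) - 1 := by omega
    have hex : ∃ k, min u n + 1 ≤ 2 ^ (k + 1) - 1 := ⟨r, hPr⟩
    obtain ⟨r', hr', hle, hsm⟩ : ∃ r', min u n + 1 ≤ 2 ^ (r' + 1) - 1 ∧ r' ≤ r ∧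
        2 ^ (r' + 1) ≤ 4 * n + 4 := by
      refine ⟨Nat.find hex, Nat.find_spec hex, Nat.find_min' hex hPr, ?_⟩
      rcases Nat.eq_zero_or_pos (Nat.find hex) with h0 | h0
      · rw [h0]
        omega
      · have h1 := Nat.find_min hex (m := Nat.find hex - 1) (by omega)
        have h2 : Nat.find hex - 1 + 1 = Nat.find hex := by omega
        rw [h2] at h1
        have h3 : 2 ^ (Nat.find hex + 1) = 2 * 2 ^ (Nat.find hex) := by
          rw [pow_succ]
          ring
        omega
    obtain ⟨s', hs', C', o', hF, hv⟩ := h1 n s u r' (Finset.range (2 ^ (r' + 1) - 1)) C o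
      (Finset.card_range _)
    refine ⟨s', hs'.trans ?_, C', o', ?_, ?_⟩
    · have h1 : 2 ^ (r' + 1) * (2 * (2 * n + 2) ^ 3 + 2 * s + 10) ≤
          (4 * n + 4) * (2 * (2 * n + 2) ^ 3 + 2 * s + 12) := Nat.mul_le_mul hsm (by omega)
      omega
    · obtain ⟨S, hS, hS'⟩ := hF
      exact ⟨S, hS.trans hle, hS'⟩
    · have e : (fun x => C'.val x o') = fun x => C.val x o := by
        funext x
        rw [hv x]
        unfold altu
        have h3 := UPX_wtu_le u x
        rw [if_pos (Finset.mem_range.mpr (by omega))]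
      rw [e]
      have h4 : adv D (fun x => C.val x o = true) (fun x => C.val x o) = 1 / 2 := by
        have h5 : agr D (fun x => C.val x o = true) (fun x => C.val x o) = 1 := by
          unfold agr
          rw [← hD.2]
          apply Finset.sum_congr rfl
          intro x _
          exact if_pos Iff.rfl
        unfold adv
        rw [h5]
        norm_num
      rw [h4]
      exact min_le_left _ _

end Pool.Agent.ADV
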